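import Pool.Agent.Run7.h911.PH5

/-!
# The form factor of the zeros at every size of zeta (under RH)

The zeros are sorted by the size of the zeta function around them. By Selberg's theorem
`√2 log |ζ(1/2 + it)| / √(log log t)` is asymptotically a standard Gaussian variable. An ordinate `γ`
has size in `(a, b)` when this normalised size lies in `(a, b)` on at least nine tenths of the window
`|t - γ| ≤ 1 / log γ` (at `γ` itself zeta vanishes). Let `G` be the standard Gaussian measure of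
`(a, b)`, and let `F_{a,b}(α, T)` be Montgomery's function, formed with the zeros in `(T, 2T]` of size
in `(a, b)` only. The strong pair correlation conjecture says that for all zeros `F(α, T) = 1 + o(1)`
uniformly for `1 ≤ α ≤ A`. On the Riemann hypothesis we prove for every `a < b`:

(1) `F_{a,b}(α, T) ≥ 0`;

(2) in the mean over intervals `F_{a,b}` is between `2G/3` and `4G/3`: for every `ε`, all large `T`, all real
`c` and all `l ≥ 0` the integral of `F_{a,b}` over `[c, c + l]` is between `(2/3)(l - 2) G - ε (l + 1)` and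
`(4/3)(l + 2) G + ε (l + 1)`, uniformly in `c` and `l`;

(3) Montgomery's theorem: the integral over `[p, q]`, `0 < p < q < 1`, tends to `G (q² - p²) / 2`;

(4) there is no point mass one in `(0, 2)`: for `0 < θ < 2` there is `e > 0`, the same for all `a < b`, such
that the integral over `[θ - e, θ + e]` is at most `(1 - e) G` for large `T`.
-/

set_option autoImplicit false

open MeasureTheory

namespace Pool.Agent.Results.MP_00e05b_nt.FormFactorAtEverySize

open Pool.Agent.Results.MP_103a5c_nt.BohrSetPairs (zeros mult)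

/-- the normalised size of zeta at the height `t` -/
noncomputable def size (t : ℝ) : ℝ :=
  Real.sqrt 2 * (Real.log ‖riemannZeta (1 / 2 + t * Complex.I)‖ / Real.sqrt (Real.log (Real.log t)))

/-- the window of length `2 / log y` centred at `y` -/
noncomputable def window (y : ℝ) : Set ℝ := Set.Icc (y - 1 / Real.log y) (y + 1 / Real.log y)

/-- the ordinates of size in `(a, b)`: the size is in `(a, b)` on nine tenths of the window -/
def SizeIn (a b : ℝ) : Set ℝ :=
  {y : ℝ | 9 / 10 * (2 / Real.log y) ≤ volume.real {t : ℝ | t ∈ window y ∧ a < size t ∧ size t < b}}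

/-- the standard Gaussian measure of the interval `(a, b)` -/
noncomputable def gauss (a b : ℝ) : ℝ := (ProbabilityTheory.gaussianReal 0 1).real (Set.Ioo a b)

open Classical in
/-- Montgomery's function for the zeros with ordinates `γ, γ'` in `(T, 2T]`, both of size in `(a, b)`, counted
with multiplicity, `γ = γ'` included:
`(2π / (T log T)) ∑_γ ∑_γ' cos(α (γ - γ') log T) w(γ - γ')`, `w(u) = 4 / (4 + u²)` -/
noncomputable def F (a b α T : ℝ) : ℝ :=
  2 * Real.pi / (T * Real.log T) * ∑ᶠ s ∈ zeros T (2 * T), ∑ᶠ s' ∈ zeros T (2 * T),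
    (mult s : ℝ) * (mult s' : ℝ) * (if s.im ∈ SizeIn a b ∧ s'.im ∈ SizeIn a b then
      Real.cos (α * (s.im - s'.im) * Real.log T) * (4 / (4 + (s.im - s'.im) ^ 2)) else 0)

open Classical in
lemma F_eq (a b α : ℝ) {T : ℝ} (hT : 1 ≤ T) : F a b α T = Run7.h911.PQ.FC a b α T := by
  unfold F Run7.h911.PQ.FC Run7.h911.PQ.CW
  have hpi := Real.pi_pos
  have e0 : (T * (Real.log T / (2 * Real.pi)))⁻¹ = 2 * Real.pi / (T * Real.log T) := by
    rw [mul_div_assoc', inv_div]
  rw [e0]
  congr 1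
  rw [Pool.Agent.Results.MP_103a5c_nt.BohrSetPairs.zeros_eq, H370.finsum_Zf H370.good_zeta hT, Finset.sum_filter]
  refine Finset.sum_congr rfl fun s _ => ?_
  rw [H370.finsum_Zf H370.good_zeta hT]
  have e1 : ∀ s, mult s = H370.mult riemannZeta s := fun s => rfl
  have e2 : ∀ s : ℂ, s.im ∈ SizeIn a b ↔ Run7.h911.PQ.NearO a b s.im := fun s => Iff.rfl
  by_cases h : Run7.h911.PQ.NearO a b s.im
  · rw [if_pos h, Finset.sum_filter]
    refine Finset.sum_congr rfl fun s' _ => ?_
    by_cases h' : Run7.h911.PQ.NearO a b s'.im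
    · rw [if_pos h', if_pos ⟨(e2 s).2 h, (e2 s').2 h'⟩, e1, e1]
      unfold Run7.h911.PQ.ww
      have e3 : α * (s.im - s'.im) * Real.log T = α * (Real.log T * (s.im - s'.im)) := by ring
      rw [e3]
    · rw [if_neg h', if_neg (fun hh => h' ((e2 s').1 hh.2)), mul_zero]
  · rw [if_neg h]
    refine Finset.sum_eq_zero fun s' _ => ?_
    rw [if_neg (fun hh => h ((e2 s).1 hh.1)), mul_zero]

lemma int_eq (a b p q : ℝ) {T : ℝ} (hT : 1 ≤ T) : ∫ α in p..q, F a b α T = ∫ α in p..q, Run7.h911.PQ.FC a b α T :=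
  intervalIntegral.integral_congr fun α _ => F_eq a b α hT

/-- Assume the Riemann hypothesis. -/
theorem result (RH : RiemannHypothesis) :
    -- (1) positivity
    (∀ a b α T : ℝ, 1 ≤ T → 0 ≤ F a b α T) ∧
    -- (2) the mean over intervals, uniformly in the interval
    (∀ a b : ℝ, a < b → ∀ ε : ℝ, 0 < ε → ∃ T₀ : ℝ, ∀ T : ℝ, T₀ ≤ T → ∀ c l : ℝ, 0 ≤ l →
      gauss a b * (2 / 3 * (l - 2)) - ε * (l + 1) ≤ ∫ α in c..(c + l), F a b α T ∧
      ∫ α in c..(c + l), F a b α T ≤ gauss a b * (4 / 3 * (l + 2)) + ε * (l + 1)) ∧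
    -- (3) the form factor in `(0, 1)`
    (∀ p q : ℝ, 0 < p → p < q → q < 1 → ∀ a b : ℝ, a < b → ∀ ε : ℝ, 0 < ε → ∃ T₀ : ℝ, ∀ T : ℝ, T₀ ≤ T →
      |(∫ α in p..q, F a b α T) - gauss a b * ((q ^ 2 - p ^ 2) / 2)| ≤ ε) ∧
    -- (4) no point mass one in `(0, 2)`
    (∀ θ : ℝ, 0 < θ → θ < 2 → ∃ e : ℝ, 0 < e ∧ ∀ a b : ℝ, a < b → ∃ T₀ : ℝ, ∀ T : ℝ, T₀ ≤ T →
      ∫ α in (θ - e)..(θ + e), F a b α T ≤ (1 - e) * gauss a b) := by
  have e0 : ∀ a b, gauss a b = Run7.h911.SZ.G01 a b := fun a b => rfl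
  refine ⟨fun a b α T hT => ?_, fun a b hab ε hε => ?_, fun p q hp hpq hq a b hab ε hε => ?_, fun θ h0 h2 => ?_⟩
  · rw [F_eq a b α hT]
    exact Run7.h911.PQ.FC_nonneg a b α hT
  · obtain ⟨T₀, h⟩ := ((Run7.h911.PQ.FC_low RH hab hε).and ((Run7.h911.PQ.FC_up RH hab hε).and
      (Filter.eventually_ge_atTop 1))).exists_forall_of_atTop
    refine ⟨T₀, fun T hT c l hl => ?_⟩
    obtain ⟨h1, h2, h3⟩ := h T hT
    rw [int_eq a b _ _ h3, e0]
    exact ⟨h1 c l hl, h2 c l hl⟩
  · obtain ⟨T₀, h⟩ := ((Run7.h911.PQ.FC_in RH hp hpq hq hab hε).and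
      (Filter.eventually_ge_atTop 1)).exists_forall_of_atTop
    refine ⟨T₀, fun T hT => ?_⟩
    obtain ⟨h1, h3⟩ := h T hT
    rw [int_eq a b _ _ h3, e0]
    exact h1
  · obtain ⟨e, he, h⟩ := Run7.h911.PQ.FC_point RH h0 h2
    refine ⟨e, he, fun a b hab => ?_⟩
    obtain ⟨T₀, h⟩ := ((h a b hab).and (Filter.eventually_ge_atTop 1)).exists_forall_of_atTop
    refine ⟨T₀, fun T hT => ?_⟩
    obtain ⟨h1, h3⟩ := h T hT
    rw [int_eq a b _ _ h3, e0]
    exact h1

end Pool.Agent.Results.MP_00e05b_nt.FormFactorAtEverySize
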