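import Mathlib
import Pool.Agent.Run7.h422.PP.FD

/-!
# Montgomery's function `F(α, T)` along the de Bruijn-Newman heat flow

`H_t(z) = ∫_0^∞ e^{t u²} Φ(u) cos (z u) du` is the de Bruijn-Newman family: `H_0(z)` is the Riemann
function `ξ(1/2 + i z/2) / 8`, and the heights of the zeros of zeta are the numbers `Re z / 2`, `H_0(z) = 0`. Let
`F(α, T)` be Montgomery's function for the zeros of zeta and `F_t(α, T)` the same function for the zeros of `H_t`,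

`F_t(α, T) = (T/(2π) log T)⁻¹ ∑_{0 < γ, γ' ≤ T} T^{iα(γ - γ')} w(γ - γ')`, `w(u) = 4/(4 + u²)`,

the sum over all ordered pairs of zeros, `γ` the heights. The question (strong pair correlation) is whether
`F(α, T) = 1 + o(1)` uniformly for `1 ≤ α ≤ A`. We consider the weak form (integrals against Schwartz
functions of `α`); all statements are unconditional.

(1) For every Schwartz function `φ` and `ε > 0` there are `δ > 0`, `T₀` with
`|∫ F_t(α, T) φ(α) dα - ∫ F(α, T) φ(α) dα| ≤ ε` for `T ≥ T₀`, `0 ≤ t log² T ≤ δ`. So `F(·, T)` and `F_{t(T)}(·, T)`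
have the same weak limits if `t(T) log² T → 0`. (On the assertion of the question and the Riemann Hypothesis the
limit is `φ(0) + ∫ min(|α|, 1) φ(α) dα`.)

(2) Above a constant multiple of this time scale `F_t(·, T)` is near the comb `ν ∑_{m ∈ ℤ} δ_m`: for all `A`, `φ`, `ε`
there are `τ₀`, `T₀` with `|∫ F_t(α, T) φ(α) dα - ν_t(T) ∑_m φ(m)| ≤ ε` for `T ≥ T₀`, `τ₀ / log² T ≤ t ≤ A / log T`,
where `ν_t(T) ≥ c > 0` is the number of the zeros of `H_t` up to `T` divided by `T/(2π) log T`.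

(3) So the analogue of the assertion of the question is false for `H_t` there: for every interval `[a, b]`
without integers (for example in `[1, A']`) and `η > 0` there is `α ∈ [a, b]` with `|F_t(α, T) - 1| ≥ 1 - η`.

The proof uses the comparison theorem `Pool.Agent.R838.ST.cmp`, the theorem on regular zeros
`Pool.Agent.R838.CR.fin_irr` and `Pool.Agent.R838.ST.midw` (starting modules; see the docstring of the starting
result `MP_cd509c_nt.HeatFlowSpacing` for their authors).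
-/

set_option autoImplicit false

open Filter Topology
open scoped SchwartzMap

namespace Pool.Agent.Results.MP_00e05b_nt.HeatFlowFormFactor

/-- The kernel `Φ(u) = ∑_{n ≥ 1} (2 π² n⁴ e^{9u} - 3 π n² e^{5u}) exp (-π n² e^{4u})`. -/
noncomputable def Phi (u : ℝ) : ℝ := ∑' n : ℕ,
  (2 * Real.pi ^ 2 * ((n : ℝ) + 1) ^ 4 * Real.exp (9 * u) -
    3 * Real.pi * ((n : ℝ) + 1) ^ 2 * Real.exp (5 * u)) *
    Real.exp (-(Real.pi * ((n : ℝ) + 1) ^ 2 * Real.exp (4 * u)))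

/-- The de Bruijn-Newman family `H_t(z) = ∫_0^∞ e^{t u²} Φ(u) cos (z u) du`. -/
noncomputable def H (t : ℝ) (z : ℂ) : ℂ :=
  ∫ u in Set.Ioi (0 : ℝ), ((Real.exp (t * u ^ 2) * Phi u : ℝ) : ℂ) * Complex.cos (z * u)

/-- The nontrivial zeros of zeta with multiplicity: `(ρ, i)`, `i` less than the multiplicity of `ρ`. -/
def ZetaZeros : Set (ℂ × ℕ) :=
  {p | 0 < p.1.re ∧ p.1.re < 1 ∧ p.2 < analyticOrderNatAt riemannZeta p.1}

/-- The zeros of `H_t` with multiplicity. -/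
def HZeros (t : ℝ) : Set (ℂ × ℕ) := {p | p.2 < analyticOrderNatAt (H t) p.1}

/-- The ordered pairs of (equal or different) elements of `Z` with heights `h` in `(0, T]`. -/
def Pairs (Z : Set (ℂ × ℕ)) (h : ℂ → ℝ) (T : ℝ) : Set ((ℂ × ℕ) × (ℂ × ℕ)) :=
  {x | (x.1 ∈ Z ∧ 0 < h x.1.1 ∧ h x.1.1 ≤ T) ∧ (x.2 ∈ Z ∧ 0 < h x.2.1 ∧ h x.2.1 ≤ T)}

/-- Montgomery's function `(T/(2π) log T)⁻¹ ∑ T^{iα(γ - γ')} w(γ - γ')`, `w(u) = 4/(4 + u²)`, the sum over the
pairs in `Pairs Z h T`, with heights `γ, γ'`. -/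
noncomputable def F (Z : Set (ℂ × ℕ)) (h : ℂ → ℝ) (T α : ℝ) : ℂ :=
  ((T / (2 * Real.pi) * Real.log T : ℝ) : ℂ)⁻¹ * ∑ᶠ x ∈ Pairs Z h T,
    (T : ℂ) ^ (Complex.I * α * ((h x.1.1 - h x.2.1 : ℝ) : ℂ)) *
      ((4 / (4 + (h x.1.1 - h x.2.1) ^ 2) : ℝ) : ℂ)

/-- `F(α, T)` for the zeros of zeta; the height is the imaginary part. -/
noncomputable def FZeta (T α : ℝ) : ℂ := F ZetaZeros (fun z => z.im) T α

/-- `F_t(α, T)`, the same for the zeros of `H_t`; the height is half of the real part. -/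
noncomputable def FH (t T α : ℝ) : ℂ := F (HZeros t) (fun z => z.re / 2) T α

/-- `ν_t(T)`: the number of zeros of `H_t` with heights in `(0, T]`, divided by `T/(2π) log T`. -/
noncomputable def nu (t T : ℝ) : ℝ :=
  (({p | p ∈ HZeros t ∧ 0 < p.1.re / 2 ∧ p.1.re / 2 ≤ T} : Set (ℂ × ℕ)).ncard : ℝ) /
    (T / (2 * Real.pi) * Real.log T)

/-- **Main theorem.** (1) `F_t(·, T)` is weakly near `F(·, T)` for `0 ≤ t log² T ≤ δ`. (2) Let `A > 0`. There are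
`c, C` with `0 < c ≤ ν_t(T) ≤ C` for large `T` and `0 ≤ t ≤ A / log T`; for `τ₀ / log² T ≤ t ≤ A / log T` the
function `F_t(·, T)` is weakly near `ν_t(T) ∑_m δ_m`, and (3) on each interval `[a, b]` without integers there is
`α` with `|F_t(α, T) - 1| ≥ 1 - η`. -/
theorem result :
    (∀ (φ : 𝓢(ℝ, ℂ)) (ε : ℝ), 0 < ε → ∃ δ T₀ : ℝ, 0 < δ ∧ 2 ≤ T₀ ∧
      ∀ T t : ℝ, T₀ ≤ T → 0 ≤ t → t * Real.log T ^ 2 ≤ δ →
        ‖(∫ α : ℝ, FH t T α * φ α) - ∫ α : ℝ, FZeta T α * φ α‖ ≤ ε) ∧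
    (∀ A : ℝ, 0 < A →
      (∃ c C T₀ : ℝ, 0 < c ∧ 2 ≤ T₀ ∧ ∀ T t : ℝ, T₀ ≤ T → 0 ≤ t → t * Real.log T ≤ A →
        c ≤ nu t T ∧ nu t T ≤ C) ∧
      (∀ (φ : 𝓢(ℝ, ℂ)) (ε : ℝ), 0 < ε → ∃ τ₀ T₀ : ℝ, 0 < τ₀ ∧ 2 ≤ T₀ ∧
        ∀ T t : ℝ, T₀ ≤ T → τ₀ ≤ t * Real.log T ^ 2 → t * Real.log T ≤ A →
          ‖(∫ α : ℝ, FH t T α * φ α) - (nu t T : ℂ) * ∑' m : ℤ, φ m‖ ≤ ε) ∧
      (∀ a b η : ℝ, a < b → (∀ m : ℤ, (m : ℝ) ∉ Set.Icc a b) → 0 < η →
        ∃ τ₀ T₀ : ℝ, 0 < τ₀ ∧ 2 ≤ T₀ ∧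
        ∀ T t : ℝ, T₀ ≤ T → τ₀ ≤ t * Real.log T ^ 2 → t * Real.log T ≤ A →
          ∃ α ∈ Set.Icc a b, 1 - η ≤ ‖FH t T α - 1‖)) := by
  refine ⟨fun φ ε hε => ?_, fun A hA => ⟨?_, ?_, ?_⟩⟩
  · exact Run7.h422.PP.soft_small fun t ht h2 => Run7.h422.PP.ff_diff ht h2 φ hε
  · obtain ⟨c, T1, hc, hT1, h1⟩ := Run7.h422.PP.nh_geU hA
    obtain ⟨C, T2, hC, hT2, h2⟩ := Run7.h422.PP.nh_leU hA
    refine ⟨c, C * (2 * Real.pi), max T1 T2, hc, hT1.trans (le_max_left _ _), fun T t hT ht hA' => ?_⟩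
    have hT' : 2 ≤ T := hT1.trans ((le_max_left _ _).trans hT)
    have hL : 0 < Real.log T := Real.log_pos (by linarith)
    have hpi := Real.pi_pos
    have g1 := h1 T t ((le_max_left _ _).trans hT) ht hA'
    have g2 := h2 T t ((le_max_right _ _).trans hT) ht hA'
    have hX : 0 < T / (2 * Real.pi) * Real.log T := by positivity
    have e1 : T / (2 * Real.pi) * Real.log T ≤ T * Real.log T := by
      refine mul_le_mul_of_nonneg_right (div_le_self (by linarith) ?_) hL.le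
      linarith [Real.pi_gt_three]
    constructor
    · show c ≤ Run7.h422.PP.NH t T / (T / (2 * Real.pi) * Real.log T)
      rw [le_div_iff₀ hX]
      exact (mul_le_mul_of_nonneg_left e1 hc.le).trans g1
    · show Run7.h422.PP.NH t T / (T / (2 * Real.pi) * Real.log T) ≤ C * (2 * Real.pi)
      rw [div_le_iff₀ hX]
      refine g2.trans (le_of_eq ?_)
      field_simp
  · intro φ ε hε
    exact Run7.h422.PP.soft_big hA fun t h1 h2 => Run7.h422.PP.ff_big hA φ hε h1 h2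
  · intro a b η hab hint hη
    exact Run7.h422.PP.soft_big hA fun t h1 h2 => Run7.h422.PP.ff_fail hA hab hint hη h1 h2

end Pool.Agent.Results.MP_00e05b_nt.HeatFlowFormFactor
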