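import Pool.Agent.Run7.h613.NG.Freq
import Pool.Agent.Run7.h613.NG.Pairs
import Pool.Agent.H370R2.DirGood
import Pool.Agent.H370R2.Expl1
import Pool.Agent.H344R2.KBounds

/-!
# Montgomery's function and pairs of zeros in EVERY short interval near typical numbers

For `0 < η < 1` there are `s < 1`, `κ > 0` and a set `S` of integers with `O(X ^ (s + δ))` elements up to `X`, for every
`δ > 0`, such that the following holds for all large real `T` with integral part outside `S` and EVERY interval `(a, b]` of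
length at least `T ^ η` in `[T - T ^ (η + κ), T + T ^ (η + κ)]`.

(1) Assume the Riemann hypothesis and let `ε > 0`. Let `F_I(α)` be Montgomery's function for the zeros with ordinate in
`I = (a, b]`, at the scale `log T`. Then `(F_I(0) - F_I(α)) + (F_I(0) - F_I(β)) ≥ c log T`, `c > 0`, for all real `α`, `β` with
`ε ≤ |α - β| ≤ 1 + η - ε`; with `β = 0` this is `F_I(α) ≤ F_I(0) - c log T` for `ε ≤ |α| ≤ 1 + η - ε`, also beyond `|α| = 1`.
The starting theorem `LargeValues` has this for almost all short intervals.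

(2) No hypothesis. Let `c h = R0 / h + h (cMT⁻¹ - R0)` with the Montgomery-Taylor constant `cMT⁻¹ = 1.3274…` and
`R0 = 1.0061…`, `h < (1 + η) / 2`, `c h + 5 h / 9 < 2` and `B > 1 / (2 - c h)`; for `η ≥ 1 / 2` one can take `B = 5 / 2`. Let
`η' < η`. Then `(a, b]` contains at least `c' (β - α) (b - a) log T`, `c' > 0`, pairs of ordinates whose difference, divided by
the mean spacing `2π / log T`, is in `[α, β]`, for ALL windows `0 ≤ α`, `α + B ≤ β ≤ T ^ η'`.

So this holds near the values of generic linear forms, at the powers of almost every number and at the denominators of the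
convergents of almost every number.
-/

set_option autoImplicit false

open Filter Topology MeasureTheory

namespace Pool.Agent.Results.MP_00e05b_nt.NearTypicalNumbers

open Run7.h613.NG (Typical Generic)

/-- the nontrivial zeros of `ζ` with ordinate in `(a, b]` -/
def zeros (a b : ℝ) : Set ℂ :=
  {s : ℂ | 0 < s.re ∧ s.re < 1 ∧ a < s.im ∧ s.im ≤ b ∧ riemannZeta s = 0}

/-- the multiplicity of `s` as a zero of `ζ` -/
noncomputable def mult (s : ℂ) : ℕ := analyticOrderNatAt riemannZeta s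

/-- Montgomery's function for the zeros with ordinate in `(a, b]`, at the scale `log T`:
`(((b - a)/2π) log T)⁻¹ ∑_γ ∑_γ' T ^ (iα(γ - γ')) w(γ - γ')`, `w(u) = 4 / (4 + u²)`, the zeros being counted with
multiplicity; it is real -/
noncomputable def FI (α T a b : ℝ) : ℂ :=
  (((b - a) / (2 * Real.pi) * Real.log T : ℝ) : ℂ)⁻¹ *
    ∑ᶠ s ∈ zeros a b, ∑ᶠ s' ∈ zeros a b, (mult s : ℂ) * (mult s' : ℂ) *
      ((T : ℂ) ^ (Complex.I * α * ((s.im - s'.im : ℝ) : ℂ)) *
        (4 / (4 + ((s.im - s'.im : ℝ) : ℂ) ^ 2)))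

/-- the number of ordered pairs of zeros in `zeros a b`, counted with multiplicity, with difference of the ordinates times
`log T / 2π` in `[α, β]` -/
noncomputable def N (T a b α β : ℝ) : ℕ :=
  ∑ᶠ s ∈ zeros a b, ∑ᶠ s' ∈ {s' : ℂ | s' ∈ zeros a b ∧
    α ≤ (s.im - s'.im) * Real.log T / (2 * Real.pi) ∧
    (s.im - s'.im) * Real.log T / (2 * Real.pi) ≤ β}, mult s * mult s'

/-- the Montgomery-Taylor constant -/
noncomputable def cMT : ℝ :=
  Real.sqrt 2 * Real.tan (1 / Real.sqrt 2) / (1 + Real.tan (1 / Real.sqrt 2) / Real.sqrt 2)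

/-- the mean square of the Montgomery-Taylor window, `1.0061...` -/
noncomputable def R0 : ℝ :=
  (1 + Real.sin (Real.sqrt 2) / Real.sqrt 2) / (4 * Real.sin (1 / Real.sqrt 2) ^ 2)

/-- the constant for the bandwidth `h`; `c 1 = cMT⁻¹ = 1.3274...` -/
noncomputable def c (h : ℝ) : ℝ := R0 / h + h * (cMT⁻¹ - R0)

/-- every interval `(a, b]` of length at least `T ^ η` in `[T - T ^ (η + κ), T + T ^ (η + κ)]` has the property `P` -/
def Every (η κ T : ℝ) (P : ℝ → ℝ → Prop) : Prop :=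
  ∀ a b : ℝ, T - T ^ (η + κ) ≤ a → b ≤ T + T ^ (η + κ) → T ^ η ≤ b - a → P a b

/-- the two bounds for Montgomery's function, for all pairs of frequencies -/
def Freq (η ε κ C T : ℝ) : Prop :=
  Every η κ T fun a b => ∀ α β : ℝ, ε ≤ |α - β| → |α - β| ≤ 1 + η - ε →
    C * Real.log T ≤ ((FI 0 T a b).re - (FI α T a b).re) + ((FI 0 T a b).re - (FI β T a b).re)

/-- for all windows `[α, β]` of length at least `B` with `0 ≤ α`, `β ≤ T ^ η'`, there are at least
`C (β - α) (b - a) log T` pairs -/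
def Pairs (η η' κ B C T : ℝ) : Prop :=
  Every η κ T fun a b => ∀ α β : ℝ, 0 ≤ α → α + B ≤ β → β ≤ T ^ η' →
    C * ((β - α) * ((b - a) * Real.log T)) ≤ (N T a b α β : ℝ)

lemma FI_rfl (α T a b : ℝ) : FI α T a b = LargeValues.FI α T a b := rfl

/-- `FI` is real -/
theorem FI_im {T : ℝ} (hT : 0 < T) {a : ℝ} (ha : 0 ≤ a) (α b : ℝ) : (FI α T a b).im = 0 :=
  LargeValues.FI_im hT ha α b

theorem zeros_eq (a b : ℝ) : zeros a b = H370.zset riemannZeta a b := by
  ext s
  simp only [zeros, H370.zset, Set.mem_ofPred_eq]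

/-- the sets of zeros that are summed over are finite -/
theorem zeros_finite (a b : ℝ) (ha : 0 < a) : (zeros a b).Finite := by
  rw [zeros_eq]
  exact H370.zset_finite' H370.good_zeta a b ha

theorem N_eq (T a b α β : ℝ) : N T a b α β = Run7.h613.NG.NPP riemannZeta T a b α β := by
  unfold N Run7.h613.NG.NPP mult H370.mult
  rw [zeros_eq]

theorem c_eq {h : ℝ} : c h = H295Iso.c0 h := by
  have h1 : cMT⁻¹ = H370.cMTinv := H370.cMTinv_eq
  have h2 := H228SI.constS 1 one_pos le_rfl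
  have h4 : Real.sqrt 2 / 2 = 1 / Real.sqrt 2 := by
    rw [div_eq_div_iff (by norm_num) (by positivity), Real.mul_self_sqrt (by norm_num), one_mul]
  have h3 : H295SI.RS (Real.sqrt 2) 0 = R0 := by
    unfold H295SI.RS R0
    have hs : Real.sqrt 2 ^ 2 = 2 := Real.sq_sqrt (by norm_num)
    rw [if_pos (by norm_num), hs, h4]
    simp only [abs_zero, sub_zero, mul_zero, Real.cos_zero, mul_one]
    ring
  have h5 : H295SI.cc 1 = H370.cMTinv := by
    unfold H295SI.cc H370.cMTinv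
    rfl
  rw [mul_one, h5] at h2
  unfold c H295Iso.c0 H295SI.cR
  unfold H295SI.cR at h2
  rw [h3] at h2 ⊢
  rw [h1, ← h2]
  ring

lemma cMT_num : cMT⁻¹ ≤ 1.327503 := by
  have h1 : cMT⁻¹ = H370.cMTinv := H370.cMTinv_eq
  rw [h1]
  exact H370.Expl.cMTinv_num

lemma R0_num : R0 ≤ 1.00614 := by
  obtain ⟨h1, h2⟩ := H370.Expl.exp_num
  rw [abs_le] at h1 h2
  set S : ℝ := Real.sqrt 2 * Real.sin (1 / Real.sqrt 2) with hS
  set Q : ℝ := Real.cos (1 / Real.sqrt 2) with hQ
  have hs : Real.sqrt 2 ^ 2 = 2 := Real.sq_sqrt (by norm_num)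
  have hs0 : Real.sqrt 2 ≠ 0 := by positivity
  have h3 : Real.sin (Real.sqrt 2) / Real.sqrt 2 = S * Q := by
    have e : Real.sqrt 2 = 2 * (1 / Real.sqrt 2) := by
      field_simp
      exact hs
    have e2 : Real.sin (Real.sqrt 2) = 2 * Real.sin (1 / Real.sqrt 2) * Q := by
      conv_lhs => rw [e]
      rw [Real.sin_two_mul]
    rw [e2, hS, div_eq_iff hs0]
    have : Real.sqrt 2 * Real.sin (1 / Real.sqrt 2) * Q * Real.sqrt 2 =
        Real.sqrt 2 ^ 2 * Real.sin (1 / Real.sqrt 2) * Q := by ring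
    rw [this, hs]
  have h4 : 4 * Real.sin (1 / Real.sqrt 2) ^ 2 = 2 * S ^ 2 := by
    rw [hS, mul_pow, hs]; ring
  unfold R0
  rw [h3, h4]
  have hSl : 0.918722 ≤ S := by norm_num at h2 ⊢; linarith [h2.1]
  have hSu : S ≤ 0.918729 := by norm_num at h2 ⊢; linarith [h2.2]
  have hQl : 0.760241 ≤ Q := by norm_num at h1 ⊢; linarith [h1.1]
  have hQu : Q ≤ 0.760246 := by norm_num at h1 ⊢; linarith [h1.2]
  have hS2 : 0 < 2 * S ^ 2 := by positivity
  rw [div_le_iff₀ hS2]
  nlinarith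

/-- a numerical bound: `c (0.7495) ≤ 1.5834` -/
lemma c_num : c 0.7495 ≤ 1.5834 := by
  have h2 := R0_num
  have h3 := cMT_num
  unfold c
  have e1 : R0 / 0.7495 + 0.7495 * (cMT⁻¹ - R0) = R0 * (1 / 0.7495 - 0.7495) + 0.7495 * cMT⁻¹ := by ring
  rw [e1]
  norm_num at h2 h3 ⊢
  linarith

/-- **Montgomery's function and pairs of zeros in EVERY short interval near typical numbers.** -/
theorem result (η : ℝ) (h0 : 0 < η) (h1 : η < 1) :
    -- Montgomery's function, on the Riemann hypothesis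
    (RiemannHypothesis → ∀ ε : ℝ, 0 < ε → ∃ s κ C : ℝ, 0 < s ∧ s < 1 ∧ 0 < κ ∧ 0 < C ∧
      Typical s (Freq η ε κ C) ∧ Generic (Freq η ε κ C)) ∧
    -- pairs at every distance
    (∀ η' h B : ℝ, η' < η → 0 < h → 2 * h < 1 + η → c h + 5 / 9 * h < 2 → 1 < B * (2 - c h) →
      ∃ s κ C : ℝ, 0 < s ∧ s < 1 ∧ 0 < κ ∧ 0 < C ∧ Typical s (Pairs η η' κ B C) ∧ Generic (Pairs η η' κ B C)) ∧
    (1 / 2 ≤ η → ∀ η' : ℝ, η' < η → ∃ s κ C : ℝ, 0 < s ∧ s < 1 ∧ 0 < κ ∧ 0 < C ∧
      Typical s (Pairs η η' κ (5 / 2) C) ∧ Generic (Pairs η η' κ (5 / 2) C)) := by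
  have part2 : ∀ η' h B : ℝ, η' < η → 0 < h → 2 * h < 1 + η → c h + 5 / 9 * h < 2 → 1 < B * (2 - c h) →
      ∃ s κ C : ℝ, 0 < s ∧ s < 1 ∧ 0 < κ ∧ 0 < C ∧ Typical s (Pairs η η' κ B C) ∧ Generic (Pairs η η' κ B C) := by
    intro η' h B hη' hh hh1 hc hBc
    rw [c_eq] at hc hBc
    obtain ⟨s, κ, C, hs0, hs1, hκ, hC, hT⟩ := Run7.h613.NG.pairs_typical H370.good_zeta
      Pool.Agent.TH822.AA.bz_z h0 h1 hη' hh hh1 hc hBc
    have H : Typical s (Pairs η η' κ B C) := hT.mono fun T hT a b ha hb hab α β hα hαβ hβ => by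
      rw [N_eq]
      exact hT a b ha hb hab α β hα hαβ hβ
    exact ⟨s, κ, C, hs0, hs1, hκ, hC, H, Run7.h613.NG.typical_generic hs0.le hs1 H⟩
  refine ⟨fun hRH ε hε => ?_, part2, fun h2 η' hη' => ?_⟩
  · obtain ⟨s, κ, C, hs0, hs1, hκ, hC, hT⟩ := Run7.h613.NG.freq_typical hRH h0 h1 hε
    have H : Typical s (Freq η ε κ C) := hT.mono fun T hT a b ha hb hab α β h3 h4 => hT a b ha hb hab α β h3 h4
    exact ⟨s, κ, C, hs0, hs1, hκ, hC, H, Run7.h613.NG.typical_generic hs0.le hs1 H⟩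
  · have hc := c_num
    exact part2 η' 0.7495 (5 / 2) hη' (by norm_num) (by norm_num at h2 ⊢; linarith) (by norm_num at hc ⊢; linarith)
      (by norm_num at hc ⊢; linarith)

end Pool.Agent.Results.MP_00e05b_nt.NearTypicalNumbers
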