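import Pool.Agent.Run7.h719.RG.Main
import Pool.Agent.Results.MP_103a5c_nt.BeyondOne

/-!
# The distance to the `r`-th neighbour, for every `r`, under the Riemann hypothesis

Montgomery's function `F(α, T)` is known for `|α| ≤ 1`; the strong pair correlation conjecture says
that it is `1 + o(1)` beyond.  What the known part, the positivity of `F` and of the pair measure, and
the lower bound `F ≥ 3/2 - α` on `[1, 3/2]` (file `MP_103a5c_nt.BeyondOne`) say about averages of `F`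
is enough to confine the distance of `r`-th neighbours, for every `r`: let
`D_r(n) = (γ_{n+r} - γ_n) log T / 2π` for the ordinates up to `T`, so that `D_r` is `r` on average, let
`gue(L) = L - 2 ∫_0^L (L - x) (sin πx / πx)² dx` be the number variance of the Gaussian unitary
ensemble (it grows like `π⁻² log L`) and `B(L) = gue(L) + 0.168 + 0.05/L`.  Then, for `T → ∞`,

(1) the mean of `|D_r - L|` is at most `((L - r)² + B(L) + k(k+1)) / (2k+1) + o(1)` for all natural
numbers `r, k` and real `L > 0`;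
(2) the proportion of the `n` with `D_r(n) ≥ r + y` is at most `B(r + y/2) / y² + o(1)`;
(3) the proportion of the `n` with `D_r(n) ≤ r - y`, `y < 2r`, is at most `B(r - y/2) / y² + o(1)`.

Proof.  The sum of the positive (negative) parts of `γ_{n+r} - γ_n - h` over the zeros is the integral
over `t` of the number of the `n` with `γ_n ≤ t < γ_{n+r} - h` (`γ_{n+r} - h ≤ t < γ_n`), which is the
negative (positive) part of `N(t + h) - N(t) - r`.  These parts are majorised at the integers by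
quadratic polynomials, and the mean square of `N(t + h) - N(t) - L` is bounded by the theorem on the
number variance (`Run7.h719.NV.nv`).
-/

open Filter Set

namespace Pool.Agent.Results.MP_00e05b_nt.NeighbourDistances

/-- multiplicity of `s` as a zero of the Riemann zeta function (order of vanishing at `s`) -/
noncomputable def zmult (s : ℂ) : ℕ := analyticOrderNatAt riemannZeta s

/-- the number of nontrivial zeros of `ζ` with ordinate in `(0, t]`, with multiplicity -/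
noncomputable def NZ (t : ℝ) : ℕ :=
  ∑ᶠ s ∈ {s : ℂ | riemannZeta s = 0 ∧ 0 < s.re ∧ s.re < 1 ∧ 0 < s.im ∧ s.im ≤ t}, zmult s

/-- for `n ≥ 1`: the `n`-th positive ordinate `γ n` of a nontrivial zero of `ζ`, the ordinates being
listed in nondecreasing order and repeated according to multiplicity -/
noncomputable def γ (n : ℕ) : ℝ := sInf {t : ℝ | n ≤ NZ t}

/-- the distance from the `n`-th ordinate to its `r`-th neighbour in units of the mean spacing
`2π / log T` -/
noncomputable def D (T : ℝ) (r n : ℕ) : ℝ := (γ (n + r) - γ n) * Real.log T / (2 * Real.pi)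

/-- the number variance of the Gaussian unitary ensemble -/
noncomputable def gue (L : ℝ) : ℝ :=
  L - 2 * ∫ x in (0 : ℝ)..L, (L - x) * (Real.sin (Real.pi * x) / (Real.pi * x)) ^ 2

/-- the upper bound for the number variance of the zeros -/
noncomputable def B (L : ℝ) : ℝ := gue L + 0.168 + 0.05 / L

lemma γ_eq (n : ℕ) : γ n = SG.ord n := rfl

lemma NZ_eq (t : ℝ) : NZ t = SG.NZ t := rfl

lemma B_eq (L : ℝ) : B L = Run7.h719.RG.VV L := by
  unfold B gue Run7.h719.RG.VV
  norm_num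

lemma F_eq {T : ℝ} (hT : 10 ≤ T) (α : ℝ) :
    MP_103a5c_nt.BeyondOne.F α T = (Pool.Agent.Y749.Rig.Fr T α : ℂ) := by
  rw [← Pool.Agent.Y749.Rig.P.F_eq hT α]
  unfold MP_103a5c_nt.BeyondOne.F Pool.Agent.Y749.Rig.P.F Pool.Agent.Y744.G.X
  push_cast
  rfl

lemma beyond (hRH : RiemannHypothesis) (ε : ℝ) (hε : 0 < ε) : ∀ᶠ T in Filter.atTop,
    ∀ α ∈ Set.Icc (1 : ℝ) (3 / 2), 3 / 2 - α - ε ≤ Pool.Agent.Y749.Rig.Fr T α := by
  obtain ⟨T0, h⟩ := MP_103a5c_nt.BeyondOne.result.1 ε hε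
  filter_upwards [Filter.eventually_ge_atTop T0, Filter.eventually_ge_atTop 10] with T h1 h2
  intro α hα
  have h3 := (h T h1 α hα.1 hα.2).2
  rwa [MP_103a5c_nt.BeyondOne.result.2 hRH α T, F_eq h2, Complex.ofReal_re] at h3

/-- Chebyshev's inequality for a finite sum -/
lemma cheb {s : Finset ℕ} {f : ℕ → ℝ} {a M : ℝ} (ha : 0 < a)
    (h : ∑ n ∈ s, max (f n) 0 ≤ M) :
    (({n ∈ (s : Set ℕ) | a ≤ f n}.ncard : ℕ) : ℝ) ≤ M / a := by
  classical
  have e : {n ∈ (s : Set ℕ) | a ≤ f n} = ((s.filter fun n => a ≤ f n : Finset ℕ) : Set ℕ) := by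
    ext n
    simp
  rw [e, Set.ncard_coe_finset, le_div_iff₀ ha]
  refine le_trans ?_ h
  have h1 : ((s.filter fun n => a ≤ f n).card : ℝ) * a = ∑ n ∈ s.filter (fun n => a ≤ f n), a := by
    rw [Finset.sum_const, nsmul_eq_mul]
  rw [h1]
  refine le_trans (Finset.sum_le_sum fun n hn => ?_)
    (Finset.sum_le_sum_of_subset_of_nonneg (Finset.filter_subset _ _) fun n _ _ => le_max_right _ _)
  exact (Finset.mem_filter.1 hn).2.trans (le_max_left _ _)

theorem result (hRH : RiemannHypothesis) :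
    (∀ r k : ℕ, ∀ L ε : ℝ, 0 < L → 0 < ε → ∃ T₀ : ℝ, ∀ T : ℝ, T₀ ≤ T →
      ∑ n ∈ Finset.Icc 1 (NZ T - r), |D T r n - L| ≤
        (((L - r) ^ 2 + B L + k * (k + 1)) / (2 * k + 1) + ε) * (NZ T : ℝ)) ∧
    (∀ r : ℕ, ∀ y ε : ℝ, 0 < y → 0 < ε → ∃ T₀ : ℝ, ∀ T : ℝ, T₀ ≤ T →
      ({n : ℕ | 1 ≤ n ∧ n + r ≤ NZ T ∧ r + y ≤ D T r n}.ncard : ℝ) ≤
        (B (r + y / 2) / y ^ 2 + ε) * (NZ T : ℝ)) ∧
    (∀ r : ℕ, ∀ y ε : ℝ, 0 < y → y < 2 * r → 0 < ε → ∃ T₀ : ℝ, ∀ T : ℝ, T₀ ≤ T →
      ({n : ℕ | 1 ≤ n ∧ n + r ≤ NZ T ∧ D T r n ≤ r - y}.ncard : ℝ) ≤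
        (B (r - y / 2) / y ^ 2 + ε) * (NZ T : ℝ)) := by
  classical
  refine ⟨?_, ?_, ?_⟩
  · intro r k L ε hL hε
    obtain ⟨T0, hT0⟩ := Filter.eventually_atTop.1
      (Run7.h719.RG.mean_dist hRH (beyond hRH) hL hε r k)
    refine ⟨T0, fun T hT => ?_⟩
    have h := hT0 T hT
    rw [B_eq]
    exact h
  · intro r y ε hy hε
    have hL : 0 < (r : ℝ) + y / 2 := by positivity
    obtain ⟨T0, hT0⟩ := Filter.eventually_atTop.1
      (Run7.h719.RG.excU hRH (beyond hRH) hL (show 0 < y / 2 by positivity)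
        (show 0 < ε * (y / 2) by positivity) r rfl)
    refine ⟨T0, fun T hT => ?_⟩
    have h := cheb (show 0 < y / 2 by positivity) (hT0 T hT)
    have hsub : {n : ℕ | 1 ≤ n ∧ n + r ≤ NZ T ∧ r + y ≤ D T r n} ⊆
        {n ∈ ((Finset.Icc 1 (SG.NZ T - r) : Finset ℕ) : Set ℕ) | y / 2 ≤
          (SG.ord (n + r) - SG.ord n) * Real.log T / (2 * Real.pi) - (r + y / 2)} := by
      rintro n ⟨h1, h2, h3⟩
      rw [NZ_eq] at h2
      refine ⟨?_, ?_⟩
      · rw [Finset.mem_coe, Finset.mem_Icc]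
        omega
      · unfold D at h3
        rw [γ_eq, γ_eq] at h3
        linarith
    have hc : ({n : ℕ | 1 ≤ n ∧ n + r ≤ NZ T ∧ r + y ≤ D T r n}.ncard : ℝ) ≤
        ({n ∈ ((Finset.Icc 1 (SG.NZ T - r) : Finset ℕ) : Set ℕ) | y / 2 ≤
          (SG.ord (n + r) - SG.ord n) * Real.log T / (2 * Real.pi) - (r + y / 2)}.ncard : ℝ) := by
      exact_mod_cast Set.ncard_le_ncard hsub ((Finset.finite_toSet _).subset fun n hn => hn.1)
    refine (hc.trans h).trans (le_of_eq ?_)
    rw [B_eq, NZ_eq]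
    field_simp
    ring
  · intro r y ε hy hyr hε
    have hL : 0 < (r : ℝ) - y / 2 := by linarith
    obtain ⟨T0, hT0⟩ := Filter.eventually_atTop.1
      (Run7.h719.RG.excL hRH (beyond hRH) hL (show 0 < y / 2 by positivity)
        (show 0 < ε * (y / 2) by positivity) r rfl)
    refine ⟨T0, fun T hT => ?_⟩
    have h := cheb (show 0 < y / 2 by positivity) (hT0 T hT)
    have hsub : {n : ℕ | 1 ≤ n ∧ n + r ≤ NZ T ∧ D T r n ≤ r - y} ⊆
        {n ∈ ((Finset.Icc 1 (SG.NZ T - r) : Finset ℕ) : Set ℕ) | y / 2 ≤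
          r - y / 2 - (SG.ord (n + r) - SG.ord n) * Real.log T / (2 * Real.pi)} := by
      rintro n ⟨h1, h2, h3⟩
      rw [NZ_eq] at h2
      refine ⟨?_, ?_⟩
      · rw [Finset.mem_coe, Finset.mem_Icc]
        omega
      · unfold D at h3
        rw [γ_eq, γ_eq] at h3
        linarith
    have hc : ({n : ℕ | 1 ≤ n ∧ n + r ≤ NZ T ∧ D T r n ≤ r - y}.ncard : ℝ) ≤
        ({n ∈ ((Finset.Icc 1 (SG.NZ T - r) : Finset ℕ) : Set ℕ) | y / 2 ≤
          r - y / 2 - (SG.ord (n + r) - SG.ord n) * Real.log T / (2 * Real.pi)}.ncard : ℝ) := by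
      exact_mod_cast Set.ncard_le_ncard hsub ((Finset.finite_toSet _).subset fun n hn => hn.1)
    refine (hc.trans h).trans (le_of_eq ?_)
    rw [B_eq, NZ_eq]
    field_simp
    ring

end Pool.Agent.Results.MP_00e05b_nt.NeighbourDistances
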